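import Pool.Agent.V11251.DS.Mix2

/-!
# The Möbius function at shifted primes: shifts with rearranged digits, several factors μ and Λ

The laws of the random integers and the second moments of the correlations of one arbitrary function with the Moebius
function are in the starting files (`Pool.Agent.W93`, `Pool.Agent.TH872`); new are the palindromes and the rearranged digits
for these correlations, several random shifts and the theorem (`Pool.Agent.V11251.DS`).
-/

set_option autoImplicit false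

namespace Pool.Agent.Results.MP_0bfb7f_nt.RearrangedShifts

open Finset

/-- `d` is a word of `k` digits in base `b`, in which no digit stands at more than `(1 - η) k` places. -/
def Mixed (b k : ℕ) (η : ℝ) (d : Fin k → ℕ) : Prop :=
  (∀ i, d i < b) ∧ ∀ a, ((univ.filter fun i => d i = a).card : ℝ) ≤ (1 - η) * k

/-- The integer whose `k` digits in base `b` are the digits `d` rearranged by the permutation `σ`: the digit number `j`
(the coefficient of `b ^ j`) is `d (σ j)`. -/
def rearranged (b : ℕ) {k : ℕ} (d : Fin k → ℕ) (σ : Equiv.Perm (Fin k)) : ℕ := ∑ j : Fin k, d (σ j) * b ^ (j : ℕ)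

/-- The sum over `n ≤ X` of `w(n)` times the product of the `μ(a i n + h i)` for `i ∈ I` and of the `Λ(a i n + h i)` for
`i ∉ I`. For `w = Λ`, `s = 1` and `a = 1` this is the sum of `Λ(n) μ(n + h)`. -/
noncomputable def corr {s : ℕ} (w : ℕ → ℝ) (a h : Fin s → ℕ) (I : Finset (Fin s)) (X : ℕ) : ℝ :=
  ∑ n ∈ Icc 1 X, w n * (∏ i ∈ I, (ArithmeticFunction.moebius (a i * n + h i) : ℝ)) *
    ∏ i ∈ Iᶜ, ArithmeticFunction.vonMangoldt (a i * n + h i)

/-- The sums with the first `L` of the weights `w l` are at most `N / log ^ U N` in absolute value, for all nonempty sets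
`I` of indices (the shifts with a factor `μ`) and all `X ≤ N`. -/
def Good {s : ℕ} (U L N : ℕ) (a : Fin s → ℕ) (w : ℕ → ℕ → ℝ) (h : Fin s → ℕ) : Prop :=
  ∀ l < L, ∀ I : Finset (Fin s), I.Nonempty → ∀ X ≤ N, |corr (w l) a h I X| ≤ N / Real.log N ^ U

lemma sum_eq {s : ℕ} (w : ℕ → ℝ) (a h : Fin s → ℕ) (x : Fin s → ℤ) (hx : ∀ i, x i = (h i : ℤ))
    (I : Finset (Fin s)) (X : ℕ) : corr w a h I X = ∑ n ∈ Icc 1 X, w n *
      ((∏ i ∈ I, (Pool.Agent.V11251.DS.mu0 ((a i : ℤ) * (n : ℤ) + x i) : ℝ)) *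
        ∏ i ∈ Iᶜ, Pool.Agent.V11251.DS.vm0 ((a i : ℤ) * (n : ℤ) + x i)) := by
  have e0 : ∀ (n : ℕ) (i : Fin s), (a i : ℤ) * (n : ℤ) + x i = ((a i * n + h i : ℕ) : ℤ) := by
    intro n i
    rw [hx]
    push_cast
    rfl
  simp only [e0, Pool.Agent.V11251.DS.mu0_nat]
  unfold corr Pool.Agent.V11251.DS.vm0
  simp only [Int.toNat_natCast, mul_assoc]

lemma up (N a c κ B v : ℕ) (hN : a + B + κ * B ≤ N) (hc : c ≤ B * N) (hv : v ≤ B * N) (n : ℕ) (hn : n ≤ N) :
    (a : ℤ) * (n : ℤ) + ((c : ℤ) + (κ : ℤ) * (v : ℤ)) ≤ (N : ℤ) ^ 2 := by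
  have h1 : a * n + (c + κ * v) ≤ N ^ 2 := by
    calc a * n + (c + κ * v) ≤ a * N + (B * N + κ * (B * N)) :=
          Nat.add_le_add (Nat.mul_le_mul_left _ hn) (Nat.add_le_add hc (Nat.mul_le_mul_left _ hv))
      _ = (a + B + κ * B) * N := by ring
      _ ≤ N * N := Nat.mul_le_mul_right _ hN
      _ = _ := by ring
  exact_mod_cast h1

open Classical in
/-- Let `s`, bases `b i ≥ 2`, multipliers `κ i ≥ 1` and coefficients `a i ≥ 1` (`i < s`), `η > 0`, `B`, `T` and `U` be fixed, let
`N` be large, let `k i` be lengths with `N / B ≤ b i ^ k i ≤ B N`, let `0 ≤ c i ≤ B N`, let `d i` be ANY word of `k i` digits in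
base `b i` in which no digit stands at more than `(1 - η) k i` places, and let `w 0, ..., w (L - 1)`, `L ≤ log ^ T N`, be
ARBITRARY weights with `|w l n| ≤ log ^ T N`, for example the function `Λ` on the integers up to `N`, or the characteristic
functions of arbitrary sets of primes, or products of values of `Λ` at fixed shifts. Rearrange the digits of each `d i` by a
permutation `σ i`, let `v i` be the integer with the rearranged digits, and put `h i = c i + κ i v i`. Then all the vectors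
`(σ 1, ..., σ s)` of permutations, with the exception of a proportion of at most `1 / log ^ U N` of them, have the following
property: for all `l < L`, all nonempty sets `I` of indices and all `X ≤ N`, the sum over `n ≤ X` of `w l n` times the product
of the `μ(a i n + h i)`, `i ∈ I`, and of the `Λ(a i n + h i)`, `i ∉ I`, is at most `N / log ^ U N` in absolute value. -/
theorem result (s : ℕ) (b : Fin s → ℕ) (hb : ∀ i, 2 ≤ b i) (η : ℝ) (hη : 0 < η) (a κ : Fin s → ℕ) (ha : ∀ i, 1 ≤ a i)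
    (hκ : ∀ i, 1 ≤ κ i) (B T U : ℕ) :
    ∃ N₀ : ℕ, ∀ N, N₀ ≤ N → ∀ k : Fin s → ℕ, (∀ i, N ≤ B * b i ^ k i ∧ b i ^ k i ≤ B * N) →
      ∀ d : ∀ i, Fin (k i) → ℕ, (∀ i, Mixed (b i) (k i) η (d i)) →
      ∀ c : Fin s → ℕ, (∀ i, c i ≤ B * N) → ∀ L : ℕ, (L : ℝ) ≤ Real.log N ^ T →
      ∀ w : ℕ → ℕ → ℝ, (∀ l n, |w l n| ≤ Real.log N ^ T) →
      ((univ.filter fun σ : ∀ i, Equiv.Perm (Fin (k i)) =>
        ¬ Good U L N a w (fun i => c i + κ i * rearranged (b i) (d i) (σ i))).card : ℝ) ≤
      ((∏ i, (k i).factorial : ℕ) : ℝ) / Real.log N ^ U := by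
  obtain ⟨n1, h1⟩ := Pool.Agent.V11251.DS.perm_two s b hb η hη a (fun i => (κ i : ℤ)) ha
    (fun i => by have := hκ i; exact_mod_cast (by omega : κ i ≠ 0)) B (T + 1) (U + T + s + 1 + 1)
  obtain ⟨n2, h2⟩ := Pool.Agent.V11251.DS.pat_large (s * 2)
  refine ⟨n1 + n2 + 1 + ∑ i, (a i + B + κ i * B), fun N hN k hk d hd c hc L hL w hw => ?_⟩
  have hNi : ∀ i, a i + B + κ i * B ≤ N := fun i => by
    have := single_le_sum (f := fun i => a i + B + κ i * B) (fun _ _ => Nat.zero_le _) (mem_univ i)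
    omega
  obtain ⟨g1, g2, g3⟩ := h2 N (by omega)
  have h3 := Pool.Agent.V11251.DS.muvm_count N T U a (fun i => (univ : Finset (Equiv.Perm (Fin (k i)))))
    (fun i σ => (c i : ℤ) + (κ i : ℤ) * (Pool.Agent.TH872.An.V (b i) (d i) σ : ℕ)) (by omega) g1 g2 g3
    (fun i σ _ n hn => up N (a i) (c i) (κ i) B _ (hNi i) (hc i)
      ((Pool.Agent.TH872.An.V_lt (show Pool.Agent.TH872.An.Spread (b i) (k i) η (d i) from ⟨(hd i).1, (hd i).2⟩)
        (by have := hb i; omega) σ).le.trans (hk i).2) n hn)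
    (fun i j => h1 N (by omega) k (fun i => ⟨(hk i).2, (hk i).1⟩) d (fun i => ⟨(hd i).1, (hd i).2⟩) (fun i => (c i : ℤ)) (fun i => by
      rw [abs_of_nonneg (by positivity)]; exact_mod_cast hc i) i j) L hL w hw
    (fun σ => Good U L N a w (fun i => c i + κ i * rearranged (b i) (d i) (σ i)))
    (fun σ _ hv => by
      intro l hl I hI X hX
      rw [sum_eq (w l) a (fun i => c i + κ i * rearranged (b i) (d i) (σ i))
        (fun i => (c i : ℤ) + (κ i : ℤ) * (Pool.Agent.TH872.An.V (b i) (d i) (σ i) : ℕ))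
        (fun i => by push_cast; rfl) I X]
      exact hv l hl I hI X hX)
  rw [Fintype.piFinset_univ] at h3
  refine h3.trans (le_of_eq ?_)
  congr 1
  rw [card_univ, Fintype.card_pi]
  congr 1
  apply prod_congr rfl
  intro i _
  rw [Fintype.card_perm, Fintype.card_fin]

end Pool.Agent.Results.MP_0bfb7f_nt.RearrangedShifts
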