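import Pool.Agent.V11296.FP7

/-!
# The values of the Möbius function at many shifts of the primes

The sum of `Λ(n) μ(n + h_1) ⋯ μ(n + h_d)` over `n ≤ N` is at most `N / (log N) ^ U` for almost all tuples `(h_1, …, h_d)`
from a family of shifts (all numbers up to `N`, polynomial values, …), where the number `d` of factors may grow like
`A log log N`; so all the `2 ^ d` sign patterns of `(μ(p + h_1), …, μ(p + h_d))` are equally frequent for the primes
`p ≤ N` for which all the `p + h_i` are squarefree.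
-/

set_option autoImplicit false

namespace Pool.Agent.Results.MP_0bfb7f_nt.SignsAtShiftedPrimes

open Finset
open ArithmeticFunction (moebius vonMangoldt)

/-- The additive energy of order `p` of the family `s 1, …, s x`: the number of the solutions of
`s (v 1) + … + s (v p) = s (w 1) + … + s (w p)` with all `v i`, `w i` in `{1, …, x}`. -/
def energy (p x : ℕ) (s : ℕ → ℤ) : ℕ :=
  (((Fintype.piFinset fun _ : Fin p => Icc 1 x) ×ˢ (Fintype.piFinset fun _ : Fin p => Icc 1 x)).filter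
    (fun q => ∑ i, s (q.1 i) = ∑ i, s (q.2 i))).card

/-- The `d`-tuples of numbers from `1` to `x`. -/
def tuples (d x : ℕ) : Finset (Fin d → ℕ) := Fintype.piFinset fun _ => Icc 1 x

/-- The sum over `n ≤ N` of `w(n)` times the product of the `μ(n + h i)`, `i ∈ J`, and of the `q(n + h i)`, `i ∉ J`. -/
noncomputable def corr (w q : ℕ → ℝ) (N : ℕ) {d : ℕ} (h : Fin d → ℕ) (J : Finset (Fin d)) : ℝ :=
  ∑ n ∈ Icc 1 N, w n * ((∏ i ∈ J, ((moebius (n + h i) : ℤ) : ℝ)) * ∏ i ∈ Jᶜ, q (n + h i))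

open Classical in
/-- The number of the `n ≤ N` in `E` with `μ(n + h 1) = v 1`, …, `μ(n + h d) = v d`. -/
noncomputable def count (E : Set ℕ) (N : ℕ) {d : ℕ} (h : Fin d → ℕ) (v : Fin d → ℤ) : ℕ :=
  ((Icc 1 N).filter fun n => n ∈ E ∧ ∀ i, moebius (n + h i) = v i).card

open Classical in
/-- The number of the `n ≤ N` in `E` for which `n + h 1`, …, `n + h d` are squarefree. -/
noncomputable def free (E : Set ℕ) (N : ℕ) {d : ℕ} (h : Fin d → ℕ) : ℕ :=
  ((Icc 1 N).filter fun n => n ∈ E ∧ ∀ i, Squarefree (n + h i)).card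

theorem result :
    (∀ p B C A U : ℕ, ∃ N₀ : ℕ, ∀ N : ℕ, N₀ ≤ N → ∀ (x : ℕ) (s : ℕ → ℕ), (∀ m ∈ Icc 1 x, s m ≤ B * N) →
      (energy p x (fun m => (s m : ℤ)) : ℝ) * N ≤ Real.log N ^ C * (x : ℝ) ^ (2 * p) →
      ∀ d : ℕ, (d : ℝ) ≤ A * Real.log (Real.log N) → ∀ L : ℕ, (L : ℝ) ≤ Real.log N ^ A →
      ∀ w q : Fin L → ℕ → ℝ, (∀ l, ∀ n ∈ Icc 1 N, |w l n| ≤ Real.log N ^ A) → (∀ l n, |q l n| ≤ 1) →
      ∃ T ⊆ tuples d x, (T.card : ℝ) ≤ (x : ℝ) ^ d / Real.log N ^ U ∧
        ∀ m ∈ tuples d x, m ∉ T → ∀ l, ∀ J : Finset (Fin d), J.Nonempty →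
          |corr (w l) (q l) N (fun i => s (m i)) J| ≤ N / Real.log N ^ U) ∧
    (∀ p B C A U : ℕ, ∃ N₀ : ℕ, ∀ N : ℕ, N₀ ≤ N → ∀ (x : ℕ) (s : ℕ → ℕ), (∀ m ∈ Icc 1 x, s m ≤ B * N) →
      (energy p x (fun m => (s m : ℤ)) : ℝ) * N ≤ Real.log N ^ C * (x : ℝ) ^ (2 * p) →
      ∀ d : ℕ, (d : ℝ) ≤ A * Real.log (Real.log N) → ∀ L : ℕ, (L : ℝ) ≤ Real.log N ^ A → ∀ E : Fin L → Set ℕ,
      ∃ T ⊆ tuples d x, (T.card : ℝ) ≤ (x : ℝ) ^ d / Real.log N ^ U ∧
        ∀ m ∈ tuples d x, m ∉ T →
          (∀ J : Finset (Fin d), J.Nonempty →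
            |∑ n ∈ Icc 1 N, vonMangoldt n * ∏ i ∈ J, ((moebius (n + s (m i)) : ℤ) : ℝ)| ≤ N / Real.log N ^ U) ∧
          ∀ v : Fin d → ℤ, (∀ i, v i = 1 ∨ v i = -1) →
            |(count {n | n.Prime} N (fun i => s (m i)) v : ℝ) - free {n | n.Prime} N (fun i => s (m i)) / 2 ^ d| ≤
              N / Real.log N ^ U ∧
            ∀ l, |(count (E l) N (fun i => s (m i)) v : ℝ) - free (E l) N (fun i => s (m i)) / 2 ^ d| ≤
              N / Real.log N ^ U) := by
  classical
  have main : ∀ p B C A U : ℕ, ∃ N₀ : ℕ, 3 ≤ N₀ ∧ ∀ N : ℕ, N₀ ≤ N → ∀ (x : ℕ) (s : ℕ → ℕ), (∀ m ∈ Icc 1 x, s m ≤ B * N) →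
      (energy p x (fun m => (s m : ℤ)) : ℝ) * N ≤ Real.log N ^ C * (x : ℝ) ^ (2 * p) →
      ∀ d : ℕ, (d : ℝ) ≤ A * Real.log (Real.log N) → ∀ (ι : Type) [Fintype ι], (Fintype.card ι : ℝ) ≤ Real.log N ^ A →
      ∀ w q : ι → ℕ → ℝ, (∀ l, ∀ n ∈ Icc 1 N, |w l n| ≤ Real.log N ^ A) → (∀ l n, |q l n| ≤ 1) →
      ∃ T ⊆ tuples d x, (T.card : ℝ) ≤ (x : ℝ) ^ d / Real.log N ^ U ∧
        ∀ m ∈ tuples d x, m ∉ T → ∀ l, ∀ J : Finset (Fin d), J.Nonempty →
          |corr (w l) (q l) N (fun i => s (m i)) J| ≤ N / Real.log N ^ U := by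
    intro p B C A U
    obtain ⟨N₀, h3, h⟩ := Pool.Agent.V11296.FP.mainMu p B C A U
    refine ⟨N₀, h3, fun N hN x s hs hen d hd ι _ hL w q hw hq => ?_⟩
    have hlog : 0 < Real.log N := Real.log_pos (by
      have : (3 : ℝ) ≤ N := by exact_mod_cast h3.trans hN
      linarith)
    let e := Fintype.equivFin ι
    obtain ⟨T, hT, hTc, hTg⟩ := h N hN x s hs hen d hd (Fintype.card ι) hL
      (fun l n => if n ∈ Icc 1 N then w (e.symm l) n else 0) (fun l => q (e.symm l)) (by
        intro l n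
        split_ifs with h1
        · exact hw _ n h1
        · rw [abs_zero]; positivity) (fun l n => hq _ n)
    refine ⟨T, hT, hTc, fun m hm hmT l J hJ => ?_⟩
    have h4 := hTg m hm hmT (e l) J hJ
    have h5 : Pool.Agent.V11296.FP.wcor (fun n => if n ∈ Icc 1 N then w (e.symm (e l)) n else 0) (q (e.symm (e l))) N
        (fun i => s (m i)) J = corr (w l) (q l) N (fun i => s (m i)) J := by
      unfold Pool.Agent.V11296.FP.wcor corr Pool.Agent.V11296.FP.mr
      refine sum_congr rfl fun n hn => ?_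
      beta_reduce
      rw [if_pos hn, e.symm_apply_apply]
    rw [h5] at h4
    exact h4
  refine ⟨?_, ?_⟩
  · intro p B C A U
    obtain ⟨N₀, _, h⟩ := main p B C A U
    exact ⟨N₀, fun N hN x s hs hen d hd L hL w q hw hq => h N hN x s hs hen d hd (Fin L) (by
      rw [Fintype.card_fin]; exact hL) w q hw hq⟩
  · intro p B C A U
    obtain ⟨N₀, h3, h⟩ := main p B C (A + 1) U
    refine ⟨max N₀ 21, fun N hN x s hs hen d hd L hL E => ?_⟩
    have hNr : (21 : ℝ) ≤ N := by exact_mod_cast (le_max_right _ _).trans hN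
    have hlog3 : 3 ≤ Real.log N := by
      rw [Real.le_log_iff_exp_le (by linarith)]
      have h1 := Real.exp_one_lt_d9
      have h2 : Real.exp 3 = Real.exp 1 ^ 3 := by
        rw [← Real.exp_nat_mul]
        norm_num
      rw [h2]
      have h4 : Real.exp 1 ^ 3 ≤ 2.7182818286 ^ 3 := pow_le_pow_left₀ (Real.exp_pos 1).le h1.le 3
      refine h4.trans (le_trans ?_ hNr)
      norm_num
    have hlog0 : 0 < Real.log N := by linarith
    have hlogA : (1 : ℝ) ≤ Real.log N ^ A := one_le_pow₀ (by linarith)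
    have hlogA1 : 3 * Real.log N ^ A ≤ Real.log N ^ (A + 1) := by
      rw [pow_succ, mul_comm]
      exact mul_le_mul_of_nonneg_left hlog3 (by positivity)
    have hll : 0 ≤ Real.log (Real.log N) := Real.log_nonneg (by linarith)
    have hE : ∀ (F : Set ℕ) (n : ℕ), |Pool.Agent.V11296.FP.ind F n| ≤ 1 := by
      intro F n
      unfold Pool.Agent.V11296.FP.ind
      split_ifs <;> simp
    obtain ⟨T, hT, hTc, hTg⟩ := h N ((le_max_left _ _).trans hN) x s hs hen d (by
        push_cast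
        nlinarith) (Option (Option (Fin L))) (by
        rw [Fintype.card_option, Fintype.card_option, Fintype.card_fin]
        push_cast
        linarith)
      (fun o => o.elim (fun n => vonMangoldt n) fun o' => o'.elim (Pool.Agent.V11296.FP.ind {n | n.Prime})
        fun l => Pool.Agent.V11296.FP.ind (E l))
      (fun o => o.elim (fun _ => 1) fun _ n => ((moebius n : ℤ) : ℝ) ^ 2) (by
        intro o n hn
        rw [mem_Icc] at hn
        have k1 : (1 : ℝ) ≤ Real.log N ^ (A + 1) := by linarith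
        rcases o with _ | _ | l
        · change |vonMangoldt n| ≤ _
          rw [abs_of_nonneg ArithmeticFunction.vonMangoldt_nonneg]
          refine ArithmeticFunction.vonMangoldt_le_log.trans ?_
          have k2 : Real.log n ≤ Real.log N := Real.log_le_log (by exact_mod_cast hn.1) (by exact_mod_cast hn.2)
          refine k2.trans ?_
          rw [pow_succ]
          exact le_mul_of_one_le_left hlog0.le hlogA
        · exact (hE _ n).trans k1
        · exact (hE _ n).trans k1) (by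
        intro o n
        rcases o with _ | o
        · change |(1 : ℝ)| ≤ 1
          simp
        · change |((moebius n : ℤ) : ℝ) ^ 2| ≤ 1
          rw [abs_pow]
          exact pow_le_one₀ (abs_nonneg _) (Pool.Agent.V11296.FP.mr_abs n))
    have hfin : ∀ (F : Set ℕ) (t : Fin d → ℕ), (∀ J : Finset (Fin d), J.Nonempty →
        |corr (Pool.Agent.V11296.FP.ind F) (fun n => ((moebius n : ℤ) : ℝ) ^ 2) N t J| ≤ N / Real.log N ^ U) →
        ∀ v : Fin d → ℤ, (∀ i, v i = 1 ∨ v i = -1) →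
        |(count F N t v : ℝ) - free F N t / 2 ^ d| ≤ N / Real.log N ^ U := by
      intro F t hF v hv
      have k1 := Pool.Agent.V11296.FP.cnt_mu N (N / Real.log N ^ U) (by positivity) F t hF (fun i => (v i : ℝ)) (by
        intro i
        rcases hv i with h | h <;> rw [h]
        · left; norm_num
        · right; norm_num)
      have k2 : ((Icc 1 N).filter fun n => n ∈ F ∧ ∀ i, Pool.Agent.V11296.FP.mr (n + t i) = (v i : ℝ)) =
          ((Icc 1 N).filter fun n => n ∈ F ∧ ∀ i, moebius (n + t i) = v i) := by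
        refine filter_congr fun n _ => ?_
        unfold Pool.Agent.V11296.FP.mr
        simp only [Int.cast_inj]
      have k3 : ((Icc 1 N).filter fun n => n ∈ F ∧ ∀ i, Pool.Agent.V11296.FP.mr (n + t i) ≠ 0) =
          ((Icc 1 N).filter fun n => n ∈ F ∧ ∀ i, Squarefree (n + t i)) := by
        refine filter_congr fun n _ => ?_
        unfold Pool.Agent.V11296.FP.mr
        simp only [ne_eq, Int.cast_eq_zero, ← ArithmeticFunction.moebius_ne_zero_iff_squarefree]
      unfold count free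
      rw [← k2, ← k3]
      exact k1
    refine ⟨T, hT, hTc, fun m hm hmT => ⟨fun J hJ => ?_, fun v hv => ⟨?_, fun l => ?_⟩⟩⟩
    · have k1 := hTg m hm hmT none J hJ
      have k2 : corr (fun n => vonMangoldt n) (fun _ => 1) N (fun i => s (m i)) J =
          ∑ n ∈ Icc 1 N, vonMangoldt n * ∏ i ∈ J, ((moebius (n + s (m i)) : ℤ) : ℝ) := by
        unfold corr
        refine sum_congr rfl fun n _ => ?_
        rw [prod_const_one, mul_one]
      rw [← k2]
      exact k1
    · exact hfin {n | n.Prime} _ (fun J hJ => hTg m hm hmT (some none) J hJ) v hv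
    · exact hfin (E l) _ (fun J hJ => hTg m hm hmT (some (some l)) J hJ) v hv

end Pool.Agent.Results.MP_0bfb7f_nt.SignsAtShiftedPrimes
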