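import Pool.Agent.V11113.MC.Oc
import Pool.Agent.V11113.MR.BilFam

/-!
# The Möbius function at shifted primes: shifts from thin families of residues, several factors μ and Λ

The families are the families of the least residues modulo `m` (an arbitrary integer of the size of `N`) of residues with
exponential sums `O(#s m ^ (-δ))`, with an arbitrarily small `δ > 0` (`Small`). Examples (part (2)): the values
`x · Q y + f(x) + g(y)` modulo a prime `p` at the pairs of vectors of two arbitrary sets with `#A #A' ≥ p ^ (d + 2 δ)`; for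
`d = 1` this contains the products of the elements of two arbitrary sets with `#A #A' ≥ p ^ (1 + 2 δ)` and the multiplicative
subgroups of order `p ^ (1 / 2 + δ)`. Nothing else is assumed about the families; they may have as few as about `m ^ (2 δ)`
different members.

For almost all vectors of shifts from such families the sums of `w(n)` times a product of values of `μ` and `Λ` at the
shifted forms are small, with any power of the logarithm saved; for `w = Λ` and one shift `h` this is the sum of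
`Λ(n) μ(n + h)`.

From the starting files: the correlations of an arbitrary function with the Möbius function at one random shift of a given law
(`Pool.Agent.W93`); several shifts: helper251's `Pool.Agent.V11251.DS`. New: the families of residues (completion).
-/

set_option autoImplicit false

namespace Pool.Agent.Results.MP_0bfb7f_nt.ThinFamilies

open Finset Matrix

/-- The sum over `n ≤ X` of `w(n)` times the product of the `μ(a i n + h i)` for `i ∈ I` and of the `Λ(a i n + h i)` for
`i ∉ I`. For `w = Λ`, `r = 1` and `a = 1` this is the sum of `Λ(n) μ(n + h)`. -/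
noncomputable def corr {r : ℕ} (w : ℕ → ℝ) (a h : Fin r → ℕ) (I : Finset (Fin r)) (X : ℕ) : ℝ :=
  ∑ n ∈ Icc 1 X, w n * (∏ i ∈ I, (ArithmeticFunction.moebius (a i * n + h i) : ℝ)) *
    ∏ i ∈ Iᶜ, ArithmeticFunction.vonMangoldt (a i * n + h i)

/-- The sums with the first `L` of the weights `w l` are at most `N / log ^ U N` in absolute value, for all nonempty sets
`I` of indices (the shifts with a factor `μ`) and all `X ≤ N`. -/
def Good {r : ℕ} (U L N : ℕ) (a : Fin r → ℕ) (w : ℕ → ℕ → ℝ) (h : Fin r → ℕ) : Prop :=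
  ∀ l < L, ∀ I : Finset (Fin r), I.Nonempty → ∀ X ≤ N, |corr (w l) a h I X| ≤ N / Real.log N ^ U

/-- The exponential sums over the family `u x ∈ ℤ / m`, `x ∈ s`, at all nonzero frequencies are at most `#s m ^ (-δ)`.
(`ZMod.stdAddChar` is the character `e(x / m)`.) -/
def Small (m : ℕ) [NeZero m] (δ : ℝ) {ι : Type} (s : Finset ι) (u : ι → ZMod m) : Prop :=
  ∀ b : ZMod m, b ≠ 0 → ‖∑ x ∈ s, (ZMod.stdAddChar (b * u x) : ℂ)‖ ≤ s.card * (m : ℝ) ^ (-δ)

/-- families of values of bilinear forms -/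
theorem small_bil (p : ℕ) [NeZero p] (hp : p.Prime) (δ : ℝ) (d : ℕ) (A A' : Finset (Fin d → ZMod p))
    (Q : Matrix (Fin d) (Fin d) (ZMod p)) (hQ : IsUnit Q.det) (h : (p : ℝ) ^ (d + 2 * δ) ≤ A.card * A'.card)
    (f g : (Fin d → ZMod p) → ZMod p) : Small p δ (A ×ˢ A') (fun z => z.1 ⬝ᵥ Q.mulVec z.2 + f z.1 + g z.2) := by
  have : Fact p.Prime := ⟨hp⟩
  exact fun b hb => Pool.Agent.V11113.MR.bil_small δ p d A A' Q hQ f g h b hb

lemma sum_eq {r : ℕ} (w : ℕ → ℝ) (a h : Fin r → ℕ) (x : Fin r → ℤ) (hx : ∀ i, x i = (h i : ℤ))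
    (I : Finset (Fin r)) (X : ℕ) : corr w a h I X = ∑ n ∈ Icc 1 X, w n *
      ((∏ i ∈ I, (Pool.Agent.V11251.DS.mu0 ((a i : ℤ) * (n : ℤ) + x i) : ℝ)) *
        ∏ i ∈ Iᶜ, Pool.Agent.V11251.DS.vm0 ((a i : ℤ) * (n : ℤ) + x i)) := by
  have e0 : ∀ (n : ℕ) (i : Fin r), (a i : ℤ) * (n : ℤ) + x i = ((a i * n + h i : ℕ) : ℤ) := by
    intro n i
    rw [hx]
    push_cast
    rfl
  simp only [e0, Pool.Agent.V11251.DS.mu0_nat]
  unfold corr Pool.Agent.V11251.DS.vm0
  simp only [Int.toNat_natCast, mul_assoc]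

lemma up (N a c B v : ℕ) (hN : a + B + B ≤ N) (hc : c ≤ B * N) (hv : v ≤ B * N) (n : ℕ) (hn : n ≤ N) :
    (a : ℤ) * (n : ℤ) + ((c : ℤ) + (v : ℤ)) ≤ (N : ℤ) ^ 2 := by
  have h1 : a * n + (c + v) ≤ N ^ 2 := by
    calc a * n + (c + v) ≤ a * N + (B * N + B * N) :=
          Nat.add_le_add (Nat.mul_le_mul_left _ hn) (Nat.add_le_add hc hv)
      _ = (a + B + B) * N := by ring
      _ ≤ N * N := Nat.mul_le_mul_right _ hN
      _ = _ := by ring
  exact_mod_cast h1

open Classical in
/-- Let `r`, `B`, `T`, `U`, `δ > 0` and coefficients `a i ≥ 1` (`i < r`) be fixed.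

(1) Let `N` be large, let `m i` be moduli with `N / B ≤ m i ≤ B N`, let `u i x ∈ ℤ / m i`, `x ∈ s i`, be ARBITRARY finite
families with exponential sums at most `#(s i) (m i) ^ (-δ)`, let `0 ≤ c i ≤ B N`, and let `w 0, ..., w (L - 1)`,
`L ≤ log ^ T N`, be ARBITRARY weights with `|w l n| ≤ log ^ T N`, for example the function `Λ` on the integers up to `N`, or
the characteristic functions of arbitrary sets of primes. Then all the vectors `(x 1, ..., x r)`, `x i ∈ s i`, with the
exception of a proportion of at most `1 / log ^ U N` of these vectors, have the following property, with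
`h i = c i + (least residue of u i (x i))`: for all `l < L`, all nonempty sets `I` of indices and all `X ≤ N`, the sum over
`n ≤ X` of `w l n` times the product of the `μ(a i n + h i)`, `i ∈ I`, and of the `Λ(a i n + h i)`, `i ∉ I`, is at most
`N / log ^ U N` in absolute value.

(2) Let `p` be a prime, `d` arbitrary, let `A` and `A'` be arbitrary sets of vectors modulo `p` with
`#A #A' ≥ p ^ (d + 2 δ)`, let `Q` be an invertible matrix and let `f` and `g` be arbitrary functions. Then the family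
`x · Q y + f(x) + g(y)`, `x ∈ A`, `y ∈ A'`, has exponential sums at most `#A #A' p ^ (-δ)`. -/
theorem result (r B T U : ℕ) (δ : ℝ) (hδ : 0 < δ) (a : Fin r → ℕ) (ha : ∀ i, 1 ≤ a i) :
    (∃ N₀ : ℕ, ∀ N, N₀ ≤ N → ∀ (m : Fin r → ℕ) [∀ i, NeZero (m i)], (∀ i, m i ≤ B * N ∧ N ≤ B * m i) →
      ∀ (ι : Fin r → Type) (s : ∀ i, Finset (ι i)) (u : ∀ i, ι i → ZMod (m i)), (∀ i, Small (m i) δ (s i) (u i)) →
      ∀ c : Fin r → ℕ, (∀ i, c i ≤ B * N) → ∀ L : ℕ, (L : ℝ) ≤ Real.log N ^ T →
      ∀ w : ℕ → ℕ → ℝ, (∀ l n, |w l n| ≤ Real.log N ^ T) →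
      (((Fintype.piFinset s).filter fun x => ¬ Good U L N a w (fun i => c i + (u i (x i)).val)).card : ℝ) ≤
        ((Fintype.piFinset s).card : ℝ) / Real.log N ^ U) ∧
    (∀ (p : ℕ) [NeZero p], p.Prime → ∀ (d : ℕ) (A A' : Finset (Fin d → ZMod p)) (Q : Matrix (Fin d) (Fin d) (ZMod p)),
      IsUnit Q.det → (p : ℝ) ^ (d + 2 * δ) ≤ A.card * A'.card → ∀ f g : (Fin d → ZMod p) → ZMod p,
      Small p δ (A ×ˢ A') (fun z => z.1 ⬝ᵥ Q.mulVec z.2 + f z.1 + g z.2)) := by
  refine ⟨?_, fun p _ hp d A A' Q hQ h f g => small_bil p hp δ d A A' Q hQ h f g⟩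
  obtain ⟨n1, h1⟩ := Pool.Agent.V11113.MC.res_two r B δ hδ a ha (T + 1) (U + T + r + 1 + 1)
  obtain ⟨n2, h2⟩ := Pool.Agent.V11251.DS.pat_large (r * 2)
  refine ⟨n1 + n2 + 1 + ∑ i, (a i + B + B), fun N hN m _ hm ι s u hu c hc L hL w hw => ?_⟩
  have hNi : ∀ i, a i + B + B ≤ N := fun i => by
    have := single_le_sum (f := fun i => a i + B + B) (fun _ _ => Nat.zero_le _) (mem_univ i)
    omega
  obtain ⟨g1, g2, g3⟩ := h2 N (by omega)
  exact Pool.Agent.V11251.DS.muvm_count N T U a s
    (fun i x => (c i : ℤ) + ((u i x).val : ℤ)) (by omega) g1 g2 g3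
    (fun i x _ n hn => up N (a i) (c i) B (u i x).val (hNi i) (hc i) ((ZMod.val_lt _).le.trans (hm i).1) n hn)
    (fun i j => h1 N (by omega) i j (m i) (hm i).1 (hm i).2 (ι i) (s i) (u i) (hu i) (c i) (by
      rw [abs_of_nonneg (by positivity)]; exact_mod_cast hc i)) L hL w hw
    (fun x => Good U L N a w (fun i => c i + (u i (x i)).val))
    (fun x _ hv => by
      intro l hl I hI X hX
      rw [sum_eq (w l) a (fun i => c i + (u i (x i)).val) (fun i => (c i : ℤ) + ((u i (x i)).val : ℤ))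
        (fun i => by push_cast; rfl) I X]
      exact hv l hl I hI X hX)

end Pool.Agent.Results.MP_0bfb7f_nt.ThinFamilies
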